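import Pool.Agent.H68.TG.Targets

/-!
# The process and its majorant
-/

set_option autoImplicit false

namespace Pool.Agent.H11.TG

open List Pool.Agent.H68.TG

lemma hf_le (s : Bool) (x : ℕ) : 2 * hf s x ≤ x + 1 := by
  unfold hf
  split_ifs <;> omega

lemma t3_le (e s : Bool) (x : ℕ) (X : ℝ) (h : (x : ℝ) ≤ X) :
    ((t3 e (hf s x) : ℕ) : ℝ) ≤ (if e then 3 else 1) * (X + 1) / 2 := by
  have h1 : (2 : ℝ) * (hf s x : ℕ) ≤ x + 1 := by exact_mod_cast hf_le s x
  cases e
  · simp only [t3, Bool.false_eq_true, if_false]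
    linarith
  · simp only [t3, if_true]
    push_cast
    linarith

theorem pf_MAJ : T_MAJ := by
  intro n
  induction n with
  | zero =>
    intro q X hX
    exact ⟨rfl, rfl, hX⟩
  | succ n ih =>
    intro q X hX
    rw [Function.iterate_succ_apply]
    exact ih (nx q) _ (t3_le _ _ _ _ hX)

end Pool.Agent.H11.TG
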